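import Pool.Agent.Helper16.TY.RunBase

/-! MP_8ee768_co, project TH-Y': run list B3, segments 0 to 0 (generated). -/

set_option autoImplicit false
set_option maxRecDepth 100000
set_option linter.defProp false

namespace Pool.Agent.Gen.TY.CLS.B3_00

open Pool.Agent.Helper16.TY Pool.Agent.Helper67.TY

def d0 : segsOK repB 3 fB3 0x0 [(0x40000000000000000000000000000000000000000000000000000000000000000000000000000000000, 44, cert 44 [
  0x11db800000000000026c411db8000000000000040d11db80000000000004ec911db00000000000004ec91088c00432f3ce79df7b21088c00c7af39e79df7ba1088c00472f39e79df5b7108cc00472f39e79df5b710b7c00000000e31c678010b7800000000431c6f480fe2c0c77ef3dfffffef310b7800000000e31c638d0fe2c08f7ef3dfffefef210b7800000000431c61c810b7800000000e31c67800fe2d0c73ef3dfffffee210b7800000000431c65c510b7800000000431c6b4511db800000000431c6b4511db800000000431c61c811db800000000e31c638d11db000000000431c6b451088c00032f3ce79df7bf1088c00c76f38c73df6bb1088c00472f38c73db6b6108cc004b6f38c73db4bf11db800000000431c65c511db800000000e31c678011db800000000431c6f4811db000000000431c65c511db80000000000004ac411db800000000000022c911db8000000000000000011db0000000000000000010b7c000000000000000010b7800000000000026c40fe2c0867ef3cf3debcf710b7800000000000022c90fe2c08e7af3cf3dfbceb10b780000000000004ac410b780000000000004ec90fe2c0863af38f3ffbcf310b78000000000000040d10b780000000000000000])]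 = true := by decide +kernel
theorem s0 : SegT repB 3 fB3 0x0 0x40000000000000000000000000000000000000000000000000000000000000000000000000000000000 44 := segB3 d0

/-- the segments of the module -/
theorem ok : SegT repB 3 fB3 0x0 0x40000000000000000000000000000000000000000000000000000000000000000000000000000000000 44 := by
  have h := s0
  exact h

end Pool.Agent.Gen.TY.CLS.B3_00
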