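import Pool.Agent.Helper16.TY.RunFin
import Pool.Agent.Gen.TY.CLS.A0_00
import Pool.Agent.Gen.TY.CLS.A1_00
import Pool.Agent.Gen.TY.CLS.A1_01
import Pool.Agent.Gen.TY.CLS.A2_00
import Pool.Agent.Gen.TY.CLS.A3_00
import Pool.Agent.Gen.TY.CLS.A4_00
import Pool.Agent.Gen.TY.CLS.A5_00
import Pool.Agent.Gen.TY.CLS.B0_00
import Pool.Agent.Gen.TY.CLS.B1_00
import Pool.Agent.Gen.TY.CLS.B1_01
import Pool.Agent.Gen.TY.CLS.B2_00
import Pool.Agent.Gen.TY.CLS.B3_00

/-! MP_8ee768_co, project TH-Y': the ten run lists (generated aggregator). -/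

set_option autoImplicit false
set_option maxRecDepth 100000

namespace Pool.Agent.Gen.TY.CLS

open Pool.Agent.Helper16.TY Pool.Agent.Helper67.TY

theorem allA0 : SegT repA 513 fA0 0 (2 ^ 330) 53213 := by
  have h := A0_00.ok
  exact h

theorem allA1 : SegT repA 65 fA1 0 (2 ^ 330) 120817 := by
  have h := (A1_00.ok.app A1_01.ok (by norm_num) (by norm_num))
  exact h

theorem allA2 : SegT repA 257 fA2 0 (2 ^ 330) 1845 := by
  have h := A2_00.ok
  exact h

theorem allA3 : SegT repA 520 fA3 0 (2 ^ 330) 9812 := by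
  have h := A3_00.ok
  exact h

theorem allA4 : SegT repA 24 fA4 0 (2 ^ 330) 19519 := by
  have h := A4_00.ok
  exact h

theorem allA5 : SegT repA 192 fA5 0 (2 ^ 330) 870 := by
  have h := A5_00.ok
  exact h

theorem allB0 : SegT repB 520 fB0 0 (2 ^ 330) 57521 := by
  have h := B0_00.ok
  exact h

theorem allB1 : SegT repB 9 fB1 0 (2 ^ 330) 118102 := by
  have h := (B1_00.ok.app B1_01.ok (by norm_num) (by norm_num))
  exact h

theorem allB2 : SegT repB 24 fB2 0 (2 ^ 330) 20436 := by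
  have h := B2_00.ok
  exact h

theorem allB3 : SegT repB 3 fB3 0 (2 ^ 330) 44 := by
  have h := B3_00.ok
  exact h

/-- the ten run lists -/
theorem lists : Lists :=
  ⟨allA0, allA1, allA2, allA3, allA4, allA5, allB0, allB1, allB2, allB3⟩

end Pool.Agent.Gen.TY.CLS
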